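import Mathlib

/-!
# MP_0765f6_an: a continuously differentiable interval map with a special alpha-limit set that
is not closed

The map is `f = -1/16 + ∑ s n * (U (g n) + B (g n))`, where `g n = 4^{-n}/16`.  The intervals
`K n = [-2 g n, 1 + 4 g n]` decrease to `[0,1]`, `K n` has period `2^n`, and the return map of
`K (n+1)` to `K n` goes through a small interval to the left of `K (n+1)`.
-/

namespace Pool.Agent.Results.MP_0765f6_an.NotClosedC1

open Set Topology Filter

/-! ### definitions of the statement -/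

/-- The special alpha-limit set of `x` under a map `f` of `[0,1]` (only the values of `f` on
`[0,1]` matter): all limits of subsequences of backward orbit branches of `x` in `[0,1]`. -/
def sAlpha (f : ℝ → ℝ) (x : ℝ) : Set ℝ :=
  {y | ∃ b : ℕ → ℝ, (∀ n, b n ∈ Icc (0 : ℝ) 1) ∧ b 0 = x ∧ (∀ n, f (b (n + 1)) = b n) ∧
    ∃ k : ℕ → ℕ, StrictMono k ∧ Tendsto (fun i => b (k i)) atTop (𝓝 y)}

/-! ### elementary functions -/

/-- the square of the positive part -/
def p2 (x : ℝ) : ℝ := (max x 0) ^ 2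

lemma p2_of_nonneg {x : ℝ} (h : 0 ≤ x) : p2 x = x ^ 2 := by simp [p2, max_eq_left h]

lemma p2_of_nonpos {x : ℝ} (h : x ≤ 0) : p2 x = 0 := by simp [p2, max_eq_right h]

lemma p2_nonneg (x : ℝ) : 0 ≤ p2 x := sq_nonneg _

lemma hasDerivAt_p2 (x : ℝ) : HasDerivAt p2 (2 * max x 0) x := by
  rcases lt_trichotomy x 0 with h | h | h
  · have h1 : HasDerivAt (fun _ : ℝ => (0 : ℝ)) 0 x := hasDerivAt_const _ _
    have h2 : p2 =ᶠ[𝓝 x] fun _ => (0 : ℝ) := by
      filter_upwards [Iio_mem_nhds h] with y hy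
      exact p2_of_nonpos (le_of_lt hy)
    rw [max_eq_right h.le, mul_zero]
    exact h1.congr_of_eventuallyEq h2
  · subst h
    rw [max_self, mul_zero]
    rw [hasDerivAt_iff_isLittleO]
    have h0 : p2 0 = 0 := by simp [p2]
    simp only [h0, sub_zero, smul_zero]
    have h1 : (fun y : ℝ => p2 y) =O[𝓝 0] fun y => y ^ 2 := by
      refine Asymptotics.IsBigO.of_bound 1 (Eventually.of_forall fun y => ?_)
      rw [Real.norm_of_nonneg (p2_nonneg y), Real.norm_of_nonneg (sq_nonneg y), one_mul]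
      rcases le_total y 0 with h | h
      · rw [p2_of_nonpos h]; positivity
      · rw [p2_of_nonneg h]
    refine h1.trans_isLittleO ?_
    have := Asymptotics.isLittleO_pow_id (𝕜 := ℝ) (n := 2) (by norm_num)
    simpa using this
  · have h1 : HasDerivAt (fun y : ℝ => y ^ 2) (2 * x) x := by
      simpa using hasDerivAt_pow 2 x
    have h2 : p2 =ᶠ[𝓝 x] fun y => y ^ 2 := by
      filter_upwards [Ioi_mem_nhds h] with y hy
      exact p2_of_nonneg (le_of_lt hy)
    rw [max_eq_left h.le]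
    exact h1.congr_of_eventuallyEq h2

/-- a smoothed positive part -/
noncomputable def SP (e z : ℝ) : ℝ := (p2 (z + e) - p2 (z - e)) / (4 * e)

/-- its derivative -/
noncomputable def SP' (e z : ℝ) : ℝ := (max (z + e) 0 - max (z - e) 0) / (2 * e)

lemma hasDerivAt_SP {e : ℝ} (he : 0 < e) (z : ℝ) : HasDerivAt (SP e) (SP' e z) z := by
  have h1 : HasDerivAt (fun z => p2 (z + e)) (2 * max (z + e) 0) z := by
    have := (hasDerivAt_p2 (z + e)).comp z ((hasDerivAt_id z).add_const e)
    simpa [Function.comp_def] using this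
  have h2 : HasDerivAt (fun z => p2 (z - e)) (2 * max (z - e) 0) z := by
    have := (hasDerivAt_p2 (z - e)).comp z ((hasDerivAt_id z).sub_const e)
    simpa [Function.comp_def] using this
  have h3 := (h1.sub h2).div_const (4 * e)
  refine h3.congr_deriv ?_
  unfold SP'
  field_simp
  ring

lemma SP'_nonneg {e : ℝ} (he : 0 < e) (z : ℝ) : 0 ≤ SP' e z := by
  unfold SP'
  have : max (z - e) 0 ≤ max (z + e) 0 := max_le_max (by linarith) le_rfl
  exact div_nonneg (by linarith) (by linarith)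

lemma SP'_le {e : ℝ} (he : 0 < e) (z : ℝ) : SP' e z ≤ 1 := by
  unfold SP'
  rw [div_le_one (by linarith)]
  have : max (z + e) 0 ≤ max (z - e) 0 + 2 * e := by
    apply max_le
    · have := le_max_left (z - e) 0; linarith
    · have := le_max_right (z - e) 0; linarith
  linarith

lemma continuous_SP' (e : ℝ) : Continuous (SP' e) := by
  unfold SP'
  fun_prop

lemma SP_of_ge {e z : ℝ} (he : 0 < e) (h : e ≤ z) : SP e z = z := by
  unfold SP
  rw [p2_of_nonneg (by linarith), p2_of_nonneg (by linarith)]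
  field_simp
  ring

lemma SP_of_le {e z : ℝ} (he : 0 < e) (h : z ≤ -e) : SP e z = 0 := by
  unfold SP
  rw [p2_of_nonpos (by linarith), p2_of_nonpos (by linarith)]
  simp

lemma SP_mid {e z : ℝ} (he : 0 < e) (h1 : -e ≤ z) (h2 : z ≤ e) :
    0 ≤ SP e z ∧ z ≤ SP e z ∧ SP e z ≤ e := by
  have h : SP e z = (z + e) ^ 2 / (4 * e) := by
    unfold SP
    rw [p2_of_nonneg (by linarith), p2_of_nonpos (by linarith), sub_zero]
  rw [h]
  refine ⟨by positivity, ?_, ?_⟩
  · rw [le_div_iff₀ (by linarith)]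
    nlinarith [sq_nonneg (z - e)]
  · rw [div_le_iff₀ (by linarith)]
    nlinarith

/-- a smoothed tent: `y` on `[c/2, 1+2c]`, zero outside `(-c/2, 2+7c)` -/
noncomputable def Th (c y : ℝ) : ℝ := SP (c / 2) y - 2 * SP c (y - (1 + 3 * c)) + SP (c / 2) (y - 2 * (1 + 3 * c))

/-- its derivative -/
noncomputable def Th' (c y : ℝ) : ℝ :=
  SP' (c / 2) y - 2 * SP' c (y - (1 + 3 * c)) + SP' (c / 2) (y - 2 * (1 + 3 * c))

lemma hasDerivAt_Th {c : ℝ} (hc : 0 < c) (y : ℝ) : HasDerivAt (Th c) (Th' c y) y := by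
  have hc2 : 0 < c / 2 := by linarith
  have h1 := hasDerivAt_SP hc2 y
  have h2 : HasDerivAt (fun y => SP c (y - (1 + 3 * c))) (SP' c (y - (1 + 3 * c))) y := by
    have := (hasDerivAt_SP hc (y - (1 + 3 * c))).comp y ((hasDerivAt_id y).sub_const (1 + 3 * c))
    simpa [Function.comp_def] using this
  have h3 : HasDerivAt (fun y => SP (c / 2) (y - 2 * (1 + 3 * c)))
      (SP' (c / 2) (y - 2 * (1 + 3 * c))) y := by
    have := (hasDerivAt_SP hc2 (y - 2 * (1 + 3 * c))).comp y
      ((hasDerivAt_id y).sub_const (2 * (1 + 3 * c)))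
    simpa [Function.comp_def] using this
  exact (h1.sub (h2.const_mul 2)).add h3

lemma abs_Th'_le {c : ℝ} (hc : 0 < c) (y : ℝ) : |Th' c y| ≤ 4 := by
  have hc2 : 0 < c / 2 := by linarith
  unfold Th'
  have a1 := SP'_nonneg hc2 y
  have a2 := SP'_le hc2 y
  have b1 := SP'_nonneg hc (y - (1 + 3 * c))
  have b2 := SP'_le hc (y - (1 + 3 * c))
  have c1 := SP'_nonneg hc2 (y - 2 * (1 + 3 * c))
  have c2 := SP'_le hc2 (y - 2 * (1 + 3 * c))
  rw [abs_le]
  constructor <;> linarith

lemma continuous_Th' (c : ℝ) : Continuous (Th' c) := by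
  unfold Th'
  have := continuous_SP' c
  have := continuous_SP' (c / 2)
  fun_prop

lemma Th_id {c y : ℝ} (hc : 0 < c) (h1 : c / 2 ≤ y) (h2 : y ≤ 1 + 2 * c) : Th c y = y := by
  unfold Th
  rw [SP_of_ge (by linarith) h1, SP_of_le hc (by linarith), SP_of_le (by linarith) (by linarith)]
  ring

lemma Th_left {c y : ℝ} (hc : 0 < c) (h1 : y ≤ -(c / 2)) : Th c y = 0 := by
  unfold Th
  rw [SP_of_le (by linarith) h1, SP_of_le hc (by linarith), SP_of_le (by linarith) (by linarith)]
  ring

lemma Th_right {c y : ℝ} (hc : 0 < c) (h1 : 2 + 7 * c ≤ y) : Th c y = 0 := by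
  unfold Th
  rw [SP_of_ge (by linarith) (by linarith), SP_of_ge hc (by linarith),
    SP_of_ge (by linarith) (by linarith)]
  ring

lemma Th_mem {c : ℝ} (hc : 0 < c) (y : ℝ) : 0 ≤ Th c y ∧ Th c y ≤ 1 + 5 * c := by
  have hc2 : 0 < c / 2 := by linarith
  rcases le_total y (-(c / 2)) with h1 | h1
  · rw [Th_left hc h1]; constructor <;> linarith
  rcases le_total y (c / 2) with h2 | h2
  · unfold Th
    rw [SP_of_le hc (z := y - (1 + 3 * c)) (by linarith),
      SP_of_le hc2 (z := y - 2 * (1 + 3 * c)) (by linarith)]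
    obtain ⟨a, b, d⟩ := SP_mid hc2 h1 h2
    constructor <;> linarith
  rcases le_total y (1 + 2 * c) with h3 | h3
  · rw [Th_id hc h2 h3]; constructor <;> linarith
  rcases le_total y (1 + 4 * c) with h4 | h4
  · unfold Th
    rw [SP_of_ge hc2 h2, SP_of_le hc2 (z := y - 2 * (1 + 3 * c)) (by linarith)]
    obtain ⟨a, b, d⟩ := SP_mid hc (z := y - (1 + 3 * c)) (by linarith) (by linarith)
    constructor <;> linarith
  rcases le_total y (2 + 6 * c - c / 2) with h5 | h5
  · unfold Th
    rw [SP_of_ge hc2 h2, SP_of_ge hc (by linarith), SP_of_le hc2 (by linarith)]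
    constructor <;> linarith
  rcases le_total y (2 + 6 * c + c / 2) with h6 | h6
  · unfold Th
    rw [SP_of_ge hc2 h2, SP_of_ge hc (by linarith)]
    obtain ⟨a, b, d⟩ := SP_mid hc2 (z := y - 2 * (1 + 3 * c)) (by linarith) (by linarith)
    constructor <;> linarith
  · unfold Th
    rw [SP_of_ge hc2 h2, SP_of_ge hc (by linarith), SP_of_ge hc2 (by linarith)]
    constructor <;> linarith

/-- the left bump -/
noncomputable def U (c x : ℝ) : ℝ := Th c (8 * (x / c + 1) + 3 / 4 * c)

/-- the derivative of the left bump -/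
noncomputable def U' (c x : ℝ) : ℝ := Th' c (8 * (x / c + 1) + 3 / 4 * c) * (8 / c)

lemma hasDerivAt_U {c : ℝ} (hc : 0 < c) (x : ℝ) : HasDerivAt (U c) (U' c x) x := by
  have h1 : HasDerivAt (fun x : ℝ => 8 * (x / c + 1) + 3 / 4 * c) (8 / c) x := by
    have := ((((hasDerivAt_id x).div_const c).add_const 1).const_mul 8).add_const (3 / 4 * c)
    refine this.congr_deriv ?_
    ring
  exact (hasDerivAt_Th hc (8 * (x / c + 1) + 3 / 4 * c)).comp x h1

lemma abs_U'_le {c : ℝ} (hc : 0 < c) (x : ℝ) : |U' c x| ≤ 32 / c := by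
  unfold U'
  rw [abs_mul, abs_of_pos (show 0 < 8 / c by positivity)]
  have := abs_Th'_le hc (8 * (x / c + 1) + 3 / 4 * c)
  calc |Th' c (8 * (x / c + 1) + 3 / 4 * c)| * (8 / c) ≤ 4 * (8 / c) := by gcongr
    _ = 32 / c := by ring

lemma continuous_U' (c : ℝ) : Continuous (U' c) := by
  unfold U'
  have := continuous_Th' c
  fun_prop

lemma U_zero {c x : ℝ} (hc : 0 < c) (hc1 : c ≤ 1 / 16) (h : x ≤ -(2 * c) ∨ -(c / 2) ≤ x) :
    U c x = 0 := by
  have hx : x = (x / c) * c := by field_simp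
  rcases h with h | h
  · apply Th_left hc
    have : x / c ≤ -2 := by rw [div_le_iff₀ hc]; linarith
    linarith
  · apply Th_right hc
    have : -(1 / 2) ≤ x / c := by rw [le_div_iff₀ hc]; linarith
    linarith

/-- the right bump -/
noncomputable def B (c x : ℝ) : ℝ := (1 + 3 * c) * p2 (1 - ((x - 1) / c - 2) ^ 2)

/-- the derivative of the right bump -/
noncomputable def B' (c x : ℝ) : ℝ :=
  (1 + 3 * c) * (2 * max (1 - ((x - 1) / c - 2) ^ 2) 0 * (-(2 * ((x - 1) / c - 2) * (1 / c))))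

lemma hasDerivAt_B (c x : ℝ) : HasDerivAt (B c) (B' c x) x := by
  have h1 : HasDerivAt (fun x : ℝ => 1 - ((x - 1) / c - 2) ^ 2)
      (-(2 * ((x - 1) / c - 2) * (1 / c))) x := by
    have h0 : HasDerivAt (fun x : ℝ => (x - 1) / c - 2) (1 / c) x :=
      (((hasDerivAt_id x).sub_const 1).div_const c).sub_const 2
    have := (h0.pow 2).const_sub 1
    refine this.congr_deriv ?_
    push_cast
    ring
  exact ((hasDerivAt_p2 _).comp x h1).const_mul (1 + 3 * c)

lemma abs_B'_le {c : ℝ} (hc : 0 < c) (hc1 : c ≤ 1 / 16) (x : ℝ) : |B' c x| ≤ 8 / c := by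
  unfold B'
  set t := (x - 1) / c - 2 with ht
  rcases le_total (1 - t ^ 2) 0 with h | h
  · rw [max_eq_right h]
    simp
    positivity
  · rw [max_eq_left h]
    have ht1 : |t| ≤ 1 := by
      rw [← sq_le_one_iff_abs_le_one]; linarith
    have h2 : |1 - t ^ 2| ≤ 1 := by
      rw [abs_of_nonneg h]; nlinarith [sq_nonneg t]
    rw [abs_mul, abs_mul, abs_mul, abs_neg, abs_mul, abs_mul, abs_of_pos (show 0 < 1 + 3 * c by linarith),
      abs_of_pos (show (0 : ℝ) < 2 by norm_num), abs_of_pos (show 0 < 1 / c by positivity)]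
    have hcc : 0 < 1 / c := by positivity
    calc (1 + 3 * c) * (2 * |1 - t ^ 2| * (2 * |t| * (1 / c)))
        ≤ (1 + 3 * (1 / 16)) * (2 * 1 * (2 * 1 * (1 / c))) := by gcongr
      _ ≤ 8 / c := by
          have : (8 : ℝ) / c = 8 * (1 / c) := by ring
          rw [this]; nlinarith

lemma continuous_B' (c : ℝ) : Continuous (B' c) := by
  unfold B'
  fun_prop

lemma B_zero {c x : ℝ} (hc : 0 < c) (h : x ≤ 1 + c ∨ 1 + 3 * c ≤ x) : B c x = 0 := by
  unfold B
  rw [p2_of_nonpos, mul_zero]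
  rcases h with h | h
  · have : (x - 1) / c ≤ 1 := by rw [div_le_iff₀ hc]; linarith
    nlinarith
  · have : 3 ≤ (x - 1) / c := by rw [le_div_iff₀ hc]; linarith
    nlinarith

lemma B_mem {c : ℝ} (hc : 0 < c) (x : ℝ) : 0 ≤ B c x ∧ B c x ≤ 1 + 3 * c := by
  unfold B
  have h1 := p2_nonneg (1 - ((x - 1) / c - 2) ^ 2)
  have h2 : p2 (1 - ((x - 1) / c - 2) ^ 2) ≤ 1 := by
    rcases le_total (1 - ((x - 1) / c - 2) ^ 2) 0 with h | h
    · rw [p2_of_nonpos h]; norm_num
    · rw [p2_of_nonneg h]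
      have := sq_nonneg ((x - 1) / c - 2)
      nlinarith
  constructor
  · positivity
  · nlinarith

lemma B_top {c : ℝ} (hc : 0 < c) : B c (1 + 2 * c) = 1 + 3 * c := by
  unfold B
  have : (1 + 2 * c - 1) / c - 2 = 0 := by field_simp; ring
  rw [this, p2_of_nonneg (by norm_num)]
  ring

/-! ### the sequences -/

/-- the scales -/
noncomputable def g (n : ℕ) : ℝ := 1 / 16 * (1 / 4) ^ n

lemma g_pos (n : ℕ) : 0 < g n := by unfold g; positivity

lemma g_succ (n : ℕ) : g (n + 1) = g n / 4 := by unfold g; rw [pow_succ]; ring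

lemma g_zero : g 0 = 1 / 16 := by simp [g]

lemma g_le (n : ℕ) : g n ≤ 1 / 16 := by
  unfold g
  have : ((1 : ℝ) / 4) ^ n ≤ 1 := pow_le_one₀ (by norm_num) (by norm_num)
  linarith

lemma g_anti {m n : ℕ} (h : m ≤ n) : g n ≤ g m := by
  unfold g
  have : ((1 : ℝ) / 4) ^ n ≤ (1 / 4) ^ m := pow_le_pow_of_le_one (by norm_num) (by norm_num) h
  linarith

lemma g_lt {m n : ℕ} (h : m < n) : g n ≤ g m / 4 := by
  rw [← g_succ]; exact g_anti h

/-- the amplitudes -/
noncomputable def s : ℕ → ℝ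
  | 0 => 1
  | n + 1 => s n * (g n / 8)

lemma s_pos (n : ℕ) : 0 < s n := by
  induction n with
  | zero => simp [s]
  | succ n ih => have := g_pos n; simp only [s]; positivity

lemma s_le (n : ℕ) : s n ≤ (1 / 128) ^ n := by
  induction n with
  | zero => simp [s]
  | succ n ih =>
    have h1 := g_pos n
    have h2 := g_le n
    have h3 := s_pos n
    simp only [s]
    rw [pow_succ]
    have : g n / 8 ≤ 1 / 128 := by linarith
    gcongr

lemma s_anti {m n : ℕ} (h : m ≤ n) : s n ≤ s m := by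
  induction n, h using Nat.le_induction with
  | base => exact le_rfl
  | succ n hmn ih =>
    have h1 := g_pos n
    have h2 := g_le n
    have h3 := s_pos n
    simp only [s]
    nlinarith

/-- the `n`-th term -/
noncomputable def T (n : ℕ) (x : ℝ) : ℝ := s n * (U (g n) x + B (g n) x)

/-- its derivative -/
noncomputable def T' (n : ℕ) (x : ℝ) : ℝ := s n * (U' (g n) x + B' (g n) x)

/-- the map -/
noncomputable def f (x : ℝ) : ℝ := -(1 / 16) + ∑' n, T n x

lemma hasDerivAt_T (n : ℕ) (x : ℝ) : HasDerivAt (T n) (T' n x) x :=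
  ((hasDerivAt_U (g_pos n) x).add (hasDerivAt_B (g n) x)).const_mul (s n)

lemma abs_T'_le (n : ℕ) (x : ℝ) : ‖T' n x‖ ≤ 640 * (1 / 32) ^ n := by
  have h1 := abs_U'_le (g_pos n) x
  have h2 := abs_B'_le (g_pos n) (g_le n) x
  have h3 := s_pos n
  have h4 := g_pos n
  rw [Real.norm_eq_abs]
  unfold T'
  rw [abs_mul, abs_of_pos h3]
  have h5 : |U' (g n) x + B' (g n) x| ≤ 40 / g n := by
    refine (abs_add_le _ _).trans ?_
    have : 40 / g n = 32 / g n + 8 / g n := by ring
    linarith
  calc s n * |U' (g n) x + B' (g n) x| ≤ (1 / 128) ^ n * (40 / g n) := by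
        gcongr
        exact s_le n
    _ = 640 * (1 / 32) ^ n := by
        unfold g
        have e : ((1 : ℝ) / 128) ^ n = (1 / 32) ^ n * (1 / 4) ^ n := by
          rw [← mul_pow]; norm_num
        rw [e]
        have : ((1 : ℝ) / 4) ^ n ≠ 0 := by positivity
        field_simp
        norm_num

lemma T_nonneg (n : ℕ) (x : ℝ) : 0 ≤ T n x := by
  have h1 := (Th_mem (g_pos n) (8 * (x / g n + 1) + 3 / 4 * g n)).1
  have h2 := (B_mem (g_pos n) x).1
  have h3 := s_pos n
  unfold T U
  positivity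

lemma T_supp {n : ℕ} {x : ℝ} (h : T n x ≠ 0) :
    (-(2 * g n) < x ∧ x < -(g n / 2)) ∨ (1 + g n < x ∧ x < 1 + 3 * g n) := by
  by_contra hcon
  push Not at hcon
  obtain ⟨h1, h2⟩ := hcon
  apply h
  unfold T
  rw [U_zero (g_pos n) (g_le n), B_zero (g_pos n)]
  · simp
  · rcases le_total x (1 + g n) with h3 | h3
    · exact Or.inl h3
    · rcases h3.eq_or_lt with h4 | h4
      · exact Or.inl h4.symm.le
      · exact Or.inr (h2 h4)
  · rcases le_total x (-(2 * g n)) with h3 | h3
    · exact Or.inl h3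
    · rcases h3.eq_or_lt with h4 | h4
      · exact Or.inl h4.symm.le
      · exact Or.inr (h1 h4)

lemma T_le (n : ℕ) (x : ℝ) : T n x ≤ s n * (1 + 5 * g n) := by
  have hg := g_pos n
  have hg1 := g_le n
  have h1 := (Th_mem (g_pos n) (8 * (x / g n + 1) + 3 / 4 * g n)).2
  have h2 := (B_mem (g_pos n) x).2
  have h3 := s_pos n
  unfold T
  apply mul_le_mul_of_nonneg_left _ h3.le
  rcases le_total x 0 with h | h
  · rw [B_zero hg (Or.inl (by linarith))]
    unfold U; linarith
  · rw [U_zero hg hg1 (Or.inr (by linarith))]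
    linarith

lemma T_single {m n : ℕ} {x : ℝ} (hmn : m ≠ n) (hm : T m x ≠ 0) : T n x = 0 := by
  by_contra hn
  have key : ∀ {i j : ℕ}, i < j → T i x ≠ 0 → T j x ≠ 0 → False := by
    intro i j hij hi hj
    have h1 := g_lt hij
    have h2 := g_pos i
    have h3 := g_pos j
    have h4 := g_le i
    rcases T_supp hi with ⟨a, b⟩ | ⟨a, b⟩ <;> rcases T_supp hj with ⟨c, d⟩ | ⟨c, d⟩ <;> linarith
  rcases lt_or_gt_of_ne hmn with h | h
  · exact key h hm hn
  · exact key h hn hm

lemma T_tsum {n : ℕ} {x : ℝ} (h : T n x ≠ 0) : ∑' m, T m x = T n x := by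
  apply tsum_eq_single
  intro m hm
  exact T_single (Ne.symm hm) h

lemma summable_T (x : ℝ) : Summable fun n => T n x := by
  by_cases h : ∃ n, T n x ≠ 0
  · obtain ⟨n, hn⟩ := h
    apply summable_of_ne_finset_zero (s := {n})
    intro m hm
    exact T_single (fun e => hm (by simp [e])) hn
  · push Not at h
    simp [h, summable_zero]

lemma hasDerivAt_f (x : ℝ) : HasDerivAt f (∑' n, T' n x) x := by
  have hs : Summable fun n : ℕ => 640 * ((1 : ℝ) / 32) ^ n :=
    (summable_geometric_of_lt_one (by norm_num) (by norm_num)).mul_left _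
  exact (hasDerivAt_tsum hs (fun n y => hasDerivAt_T n y) (fun n y => abs_T'_le n y)
    (summable_T 0) x).const_add _

lemma contDiff_f : ContDiff ℝ 1 f := by
  rw [contDiff_one_iff_deriv]
  refine ⟨fun x => (hasDerivAt_f x).differentiableAt, ?_⟩
  have h : deriv f = fun x => ∑' n, T' n x := by
    ext x; exact (hasDerivAt_f x).deriv
  rw [h]
  have hs : Summable fun n : ℕ => 640 * ((1 : ℝ) / 32) ^ n :=
    (summable_geometric_of_lt_one (by norm_num) (by norm_num)).mul_left _
  refine continuous_tsum (fun n => ?_) hs (fun n y => abs_T'_le n y)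
  unfold T'
  exact continuous_const.mul ((continuous_U' _).add (continuous_B' _))

/-! ### the dynamics -/

/-- the intervals -/
def K (n : ℕ) : Set ℝ := Icc (-(2 * g n)) (1 + 4 * g n)

lemma f_mem {n : ℕ} {x : ℝ} (hx : x ∈ K n) :
    -(1 / 16) ≤ f x ∧ f x ≤ -(1 / 16) + s n * (1 + 5 * g n) := by
  obtain ⟨hx1, hx2⟩ := hx
  unfold f
  by_cases h : ∃ m, T m x ≠ 0
  · obtain ⟨m, hm⟩ := h
    rw [T_tsum hm]
    have h1 := T_nonneg m x
    have h2 := T_le m x
    refine ⟨by linarith, ?_⟩
    have hnm : n ≤ m := by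
      by_contra hlt
      push Not at hlt
      have a1 := g_lt hlt
      have a2 := g_pos m
      have a3 := g_pos n
      have a4 := g_le m
      rcases T_supp hm with ⟨a, b⟩ | ⟨a, b⟩ <;> linarith
    have h3 := s_anti hnm
    have h4 := g_anti hnm
    have h5 := s_pos n
    have h6 := s_pos m
    have h7 := g_pos m
    have : s m * (1 + 5 * g m) ≤ s n * (1 + 5 * g n) := by gcongr
    linarith
  · push Not at h
    simp only [h, tsum_zero]
    have h5 := s_pos n
    have h7 := g_pos n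
    constructor
    · simp
    · have : 0 ≤ s n * (1 + 5 * g n) := by positivity
      linarith

/-- the affine maps -/
noncomputable def al (n : ℕ) (y : ℝ) : ℝ := -(g n) + g n / 8 * (y + g (n + 1))

lemma f_al {n : ℕ} {y : ℝ} (hy : y ∈ K (n + 1)) : f (al n y) = -(1 / 16) + s n * (y + g n) := by
  obtain ⟨hy1, hy2⟩ := hy
  have hg := g_pos n
  have hg1 := g_le n
  rw [g_succ] at hy1 hy2
  have hal : al n y = -(g n) + g n / 8 * (y + g n / 4) := by rw [al, g_succ]
  have hneg : al n y ≤ 0 := by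
    rw [hal]
    nlinarith
  have hU : U (g n) (al n y) = y + g n := by
    unfold U
    have e : 8 * (al n y / g n + 1) + 3 / 4 * g n = y + g n := by
      rw [hal]
      field_simp
      ring
    rw [e]
    exact Th_id hg (by linarith) (by linarith)
  have hT : T n (al n y) = s n * (y + g n) := by
    unfold T
    rw [hU, B_zero hg (Or.inl (by linarith)), add_zero]
  have hT0 : T n (al n y) ≠ 0 := by
    rw [hT]
    have := s_pos n
    have : 0 < y + g n := by linarith
    positivity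
  unfold f
  rw [T_tsum hT0, hT]

lemma f_z (n : ℕ) : f (1 + 2 * g n) = -(1 / 16) + s n * (1 + 3 * g n) := by
  have hg := g_pos n
  have hg1 := g_le n
  have hT : T n (1 + 2 * g n) = s n * (1 + 3 * g n) := by
    unfold T
    rw [U_zero hg hg1 (Or.inr (by linarith)), B_top hg, zero_add]
  have hT0 : T n (1 + 2 * g n) ≠ 0 := by
    rw [hT]
    have := s_pos n
    positivity
  unfold f
  rw [T_tsum hT0, hT]

lemma f_one : f 1 = -(1 / 16) := by
  unfold f
  have : ∀ n, T n 1 = 0 := by
    intro n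
    by_contra h
    have := g_pos n
    rcases T_supp h with ⟨a, b⟩ | ⟨a, b⟩ <;> linarith
  simp [this]

/-- the return maps -/
noncomputable def G (n : ℕ) (x : ℝ) : ℝ := -(g n) + (f x + 1 / 16) / s n

lemma G_mem {n : ℕ} {x : ℝ} (hx : x ∈ K n) : G n x ∈ K n := by
  obtain ⟨h1, h2⟩ := f_mem hx
  have hs := s_pos n
  have hg := g_pos n
  unfold G
  have h3 : 0 ≤ (f x + 1 / 16) / s n := div_nonneg (by linarith) hs.le
  have h4 : (f x + 1 / 16) / s n ≤ 1 + 5 * g n := by
    rw [div_le_iff₀ hs]; linarith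
  constructor <;> linarith

lemma K_succ (n : ℕ) : K (n + 1) ⊆ K n := by
  intro x hx
  obtain ⟨h1, h2⟩ := hx
  have := g_succ n
  have := g_pos n
  constructor <;> linarith

lemma K_anti {m n : ℕ} (h : m ≤ n) : K n ⊆ K m := by
  induction n, h using Nat.le_induction with
  | base => exact subset_rfl
  | succ n _ ih => exact (K_succ n).trans ih

lemma G_al {n : ℕ} {x : ℝ} : G n x = al n (G (n + 1) x) := by
  have hs := s_pos n
  have hg := g_pos n
  unfold G al
  simp only [s]
  field_simp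
  ring

lemma iter_pow (n : ℕ) : ∀ x ∈ K n, f^[2 ^ n] x = G n x := by
  induction n with
  | zero =>
    intro x _
    simp [G, s, g_zero]
  | succ n ih =>
    intro x hx
    have h1 := ih x (K_succ n hx)
    have e : 2 ^ (n + 1) = 2 ^ n + 2 ^ n := by ring
    have hG : G n x = al n (G (n + 1) x) := G_al
    rw [e, Function.iterate_add_apply, h1, ih _ (G_mem (K_succ n hx)), hG]
    have h2 := f_al (G_mem hx)
    have hs := s_pos n
    have h3 : G n (al n (G (n + 1) x)) =
        -(g n) + (f (al n (G (n + 1) x)) + 1 / 16) / s n := rfl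
    rw [h3, h2]
    field_simp
    ring

lemma iter_mul (n q : ℕ) : ∀ x ∈ K n, f^[2 ^ n * q] x ∈ K n := by
  induction q with
  | zero => intro x hx; simpa using hx
  | succ q ih =>
    intro x hx
    rw [mul_add, mul_one, Function.iterate_add_apply, iter_pow n x hx]
    exact ih _ (G_mem hx)

lemma tower (n : ℕ) : ∀ x ∈ K n, ∀ k, 0 < k → k < 2 ^ n → f^[k] x < -(2 * g n) := by
  induction n with
  | zero => intro x _ k h1 h2; simp at h2; omega
  | succ n ih =>
    intro x hx k hk1 hk2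
    have hg := g_pos n
    have hg1 := g_le n
    have hgs := g_succ n
    have hx' := K_succ n hx
    rcases lt_trichotomy k (2 ^ n) with h | h | h
    · have := ih x hx' k hk1 h
      linarith
    · rw [h, iter_pow n x hx', G_al]
      obtain ⟨h1, h2⟩ := G_mem hx
      unfold al
      rw [hgs] at *
      nlinarith
    · obtain ⟨j, rfl⟩ : ∃ j, k = j + 2 ^ n := ⟨k - 2 ^ n, by omega⟩
      rw [Function.iterate_add_apply, iter_pow n x hx']
      have : (2 : ℕ) ^ (n + 1) = 2 ^ n + 2 ^ n := by ring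
      have := ih _ (G_mem hx') j (by omega) (by omega)
      linarith

lemma dvd_of_pos {n : ℕ} {x : ℝ} (hx : x ∈ K n) {k : ℕ} (h : 0 < f^[k] x) : 2 ^ n ∣ k := by
  rw [Nat.dvd_iff_mod_eq_zero]
  by_contra hne
  have h1 : k = k % 2 ^ n + 2 ^ n * (k / 2 ^ n) := (Nat.mod_add_div k (2 ^ n)).symm
  rw [h1, Function.iterate_add_apply] at h
  have h2 := tower n _ (iter_mul n (k / 2 ^ n) x hx) (k % 2 ^ n) (Nat.pos_of_ne_zero hne)
    (Nat.mod_lt _ (by positivity))
  have := g_pos n
  linarith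

/-- no backward orbit branch accumulates at `1` -/
lemma no_acc (b : ℕ → ℝ) (hb : ∀ n, f (b (n + 1)) = b n) (k : ℕ → ℕ) (hk : StrictMono k)
    (ht : Tendsto (fun i => b (k i)) atTop (𝓝 1)) : False := by
  have hit : ∀ m n, f^[m] (b (n + m)) = b n := by
    intro m
    induction m with
    | zero => intro n; rfl
    | succ m ih =>
      intro n
      rw [Function.iterate_succ_apply, ← add_assoc, hb, ih]
  have hpos : ∀ᶠ i in atTop, 0 < b (k i) := ht.eventually (Ioi_mem_nhds (by norm_num))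
  obtain ⟨i, hi⟩ := eventually_atTop.1 hpos
  set p := k (i + 1) - k i with hp
  have hlt : k i < k (i + 1) := hk (by omega)
  obtain ⟨n, hn⟩ : ∃ n : ℕ, p < 2 ^ n := ⟨p, Nat.lt_two_pow_self⟩
  have hK : ∀ᶠ j in atTop, b (k j) ∈ K n := by
    apply ht.eventually
    apply Icc_mem_nhds
    · have := g_pos n; linarith
    · have := g_pos n; linarith
  obtain ⟨j, hj1, hj2⟩ := (hK.and (eventually_gt_atTop (i + 1))).exists
  have hlt2 : k (i + 1) < k j := hk hj2
  have h1 : f^[k j - k (i + 1)] (b (k j)) = b (k (i + 1)) := by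
    have := hit (k j - k (i + 1)) (k (i + 1))
    rwa [show k (i + 1) + (k j - k (i + 1)) = k j by omega] at this
  have h2 : f^[k j - k i] (b (k j)) = b (k i) := by
    have := hit (k j - k i) (k i)
    rwa [show k i + (k j - k i) = k j by omega] at this
  have d1 := dvd_of_pos hj1 (k := k j - k (i + 1)) (by rw [h1]; exact hi _ (by omega))
  have d2 := dvd_of_pos hj1 (k := k j - k i) (by rw [h2]; exact hi _ (by omega))
  have d3 := Nat.dvd_sub d2 d1
  have e : k j - k i - (k j - k (i + 1)) = p := by omega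
  rw [e] at d3
  have := Nat.le_of_dvd (by omega) d3
  omega

/-- backward branches under a map `h` with `h u < u`, `h v = v` -/
lemma back {h : ℝ → ℝ} (hc : Continuous h) {u v : ℝ} (huv : u < v) (hu : h u < u) (hv : h v = v) :
    ∃ y : ℕ → ℝ, y 0 = u ∧ (∀ i, h (y (i + 1)) = y i) ∧ StrictMono y ∧ ∀ i, y i < v := by
  have step : ∀ w : {w : ℝ // u ≤ w ∧ w < v ∧ h w < w},
      ∃ w' : {w : ℝ // u ≤ w ∧ w < v ∧ h w < w}, w.1 < w'.1 ∧ h w'.1 = w.1 := by
    rintro ⟨w, hw1, hw2, hw3⟩
    have : w ∈ Ioo (h w) (h v) := ⟨hw3, by rw [hv]; exact hw2⟩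
    obtain ⟨w', hw', e⟩ := intermediate_value_Ioo hw2.le hc.continuousOn this
    exact ⟨⟨w', hw1.trans hw'.1.le, hw'.2, by rw [e]; exact hw'.1⟩, hw'.1, e⟩
  choose F hF1 hF2 using step
  let y : ℕ → {w : ℝ // u ≤ w ∧ w < v ∧ h w < w} :=
    fun n => Nat.rec ⟨u, le_rfl, huv, hu⟩ (fun _ w => F w) n
  refine ⟨fun n => (y n).1, rfl, fun i => hF2 (y i), strictMono_nat_of_lt_succ fun i => hF1 (y i),
    fun i => (y i).2.2.1⟩

lemma iter_mem0 {x : ℝ} (hx : x ∈ K 0) (k : ℕ) : f^[k] x ∈ K 0 := by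
  have := iter_mul 0 k x hx
  simpa using this

/-- points of the special alpha-limit set of `1` near `1` -/
lemma exists_acc (n : ℕ) : ∃ z, 1 < z ∧ z ≤ 1 + 2 * g n ∧ ∃ b : ℕ → ℝ, (∀ m, b m ∈ K 0) ∧
    b 0 = 1 ∧ (∀ m, f (b (m + 1)) = b m) ∧
    ∃ k : ℕ → ℕ, StrictMono k ∧ Tendsto (fun i => b (k i)) atTop (𝓝 z) := by
  have hg := g_pos n
  have hg1 := g_le n
  have hs := s_pos n
  have hf : Continuous f := contDiff_f.continuous
  set N := 2 ^ n with hN
  have hN1 : 1 ≤ N := Nat.one_le_two_pow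
  have hcont : Continuous (f^[N]) := hf.iterate N
  have h1K : (1 : ℝ) ∈ K n := ⟨by linarith, by linarith⟩
  have hzK : (1 + 2 * g n) ∈ K n := ⟨by linarith, by linarith⟩
  have hu : f^[N] 1 < 1 := by
    rw [iter_pow n 1 h1K, G, f_one]
    simp
    linarith
  have hv : f^[N] (1 + 2 * g n) = 1 + 2 * g n := by
    rw [iter_pow n _ hzK, G, f_z]
    field_simp
    ring
  obtain ⟨y, hy0, hy1, hy2, hy3⟩ := back hcont (by linarith) hu hv
  have hbdd : BddAbove (range y) := ⟨1 + 2 * g n, by rintro _ ⟨i, rfl⟩; exact (hy3 i).le⟩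
  have hlim := tendsto_atTop_ciSup hy2.monotone hbdd
  have hyi : ∀ i k, f^[N * k] (y (i + k)) = y i := by
    intro i k
    induction k with
    | zero => simp
    | succ k ih =>
      rw [mul_add, mul_one, Function.iterate_add_apply, ← add_assoc, hy1, ih]
  have hyK : ∀ i, y i ∈ K 0 := by
    intro i
    have a1 : 1 ≤ y i := by rw [← hy0]; exact hy2.monotone (Nat.zero_le i)
    have a2 := hy3 i
    have a3 := g_zero
    constructor <;> linarith
  refine ⟨⨆ i, y i, ?_, ciSup_le fun i => (hy3 i).le, fun m => f^[N * m - m] (y m),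
    fun m => iter_mem0 (hyK m) _, by simpa using hy0, ?_, fun i => N * i, ?_, ?_⟩
  · have a1 : y 0 < y 1 := hy2 (by norm_num)
    rw [hy0] at a1
    exact a1.trans_le (le_ciSup hbdd 1)
  · intro m
    show f (f^[N * (m + 1) - (m + 1)] (y (m + 1))) = f^[N * m - m] (y m)
    rw [← Function.iterate_succ_apply' f]
    have hle : m ≤ N * m := Nat.le_mul_of_pos_left m (by omega)
    have e : (N * (m + 1) - (m + 1)).succ = (N * m - m) + N := by
      rw [mul_add, mul_one]; omega
    rw [e, Function.iterate_add_apply, hy1]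
  · exact strictMono_nat_of_lt_succ fun i => by
      show N * i < N * (i + 1)
      rw [mul_add]; omega
  · have e : (fun i => f^[N * (N * i) - N * i] (y (N * i))) = y := by
      ext i
      have h1 : N * (N * i) - N * i = N * ((N - 1) * i) := by
        rw [← Nat.mul_sub]
        congr 1
        rw [Nat.sub_mul, one_mul]
      have h2 : N * i = i + (N - 1) * i := by
        have : N = 1 + (N - 1) := by omega
        calc N * i = (1 + (N - 1)) * i := by rw [← this]
          _ = i + (N - 1) * i := by ring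
      rw [h1]
      conv_lhs => rw [h2]
      exact hyi _ _
    rw [e]
    exact hlim

/-! ### the result -/

/-- the map of `[0,1]` -/
noncomputable def F (t : ℝ) : ℝ := (f (-(1 / 8) + 11 / 8 * t) + 1 / 8) * (8 / 11)

lemma F_conj (t : ℝ) : -(1 / 8) + 11 / 8 * F t = f (-(1 / 8) + 11 / 8 * t) := by
  unfold F; ring

lemma memK0 {t : ℝ} : -(1 / 8) + 11 / 8 * t ∈ K 0 ↔ t ∈ Icc (0 : ℝ) 1 := by
  simp only [K, g_zero, mem_Icc]
  constructor
  · rintro ⟨h1, h2⟩; constructor <;> linarith
  · rintro ⟨h1, h2⟩; constructor <;> linarith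

/-- There is a map `F : ℝ → ℝ` of class `C¹` that maps `[0,1]` into `[0,1]` and a point `x` of
`[0,1]` such that the special alpha-limit set of `x` (for `F` restricted to `[0,1]`) is not
closed. -/
theorem result : ∃ F : ℝ → ℝ, ContDiff ℝ 1 F ∧ MapsTo F (Icc 0 1) (Icc 0 1) ∧
    ∃ x ∈ Icc (0 : ℝ) 1, ¬ IsClosed (sAlpha F x) := by
  refine ⟨F, ?_, ?_, 9 / 11, by constructor <;> norm_num, ?_⟩
  · unfold F
    exact ((contDiff_f.comp (contDiff_const.add (contDiff_const.mul contDiff_id))).add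
      contDiff_const).mul contDiff_const
  · intro t ht
    rw [← memK0, F_conj]
    exact iter_mem0 (memK0.2 ht) 1
  · intro hcl
    have hacc : ∀ n : ℕ, ∃ w ∈ sAlpha F (9 / 11), 9 / 11 < w ∧ w ≤ 9 / 11 + 16 / 11 * g n := by
      intro n
      obtain ⟨z, hz1, hz2, b, hbK, hb0, hb, k, hk, hlim⟩ := exists_acc n
      refine ⟨(z + 1 / 8) * (8 / 11), ⟨fun m => (b m + 1 / 8) * (8 / 11), ?_, ?_, ?_, k, hk, ?_⟩,
        by linarith, by linarith⟩
      · intro m
        rw [← memK0]
        have : -(1 / 8) + 11 / 8 * ((b m + 1 / 8) * (8 / 11)) = b m := by ring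
        rw [this]
        exact hbK m
      · show (b 0 + 1 / 8) * (8 / 11) = 9 / 11
        rw [hb0]; norm_num
      · intro m
        show F ((b (m + 1) + 1 / 8) * (8 / 11)) = (b m + 1 / 8) * (8 / 11)
        have : -(1 / 8) + 11 / 8 * ((b (m + 1) + 1 / 8) * (8 / 11)) = b (m + 1) := by ring
        rw [F, this, hb]
      · exact (hlim.add_const _).mul_const _
    choose w hw1 hw2 hw3 using hacc
    have hgt : Tendsto g atTop (𝓝 0) := by
      have : Tendsto (fun n : ℕ => (1 : ℝ) / 16 * (1 / 4) ^ n) atTop (𝓝 (1 / 16 * 0)) :=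
        (tendsto_pow_atTop_nhds_zero_of_lt_one (by norm_num) (by norm_num)).const_mul _
      show Tendsto (fun n : ℕ => (1 : ℝ) / 16 * (1 / 4) ^ n) atTop (𝓝 0)
      rw [mul_zero] at this
      exact this
    have hlim : Tendsto w atTop (𝓝 (9 / 11)) := by
      refine tendsto_of_tendsto_of_tendsto_of_le_of_le tendsto_const_nhds ?_ (fun n => (hw2 n).le)
        (fun n => hw3 n)
      have := (hgt.const_mul (16 / 11)).const_add (9 / 11)
      simpa using this
    have hmem := hcl.mem_of_tendsto hlim (Eventually.of_forall hw1)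
    obtain ⟨b, hbI, hb0, hb, k, hk, hlimb⟩ := hmem
    refine no_acc (fun m => -(1 / 8) + 11 / 8 * b m) (fun m => ?_) k hk ?_
    · show f (-(1 / 8) + 11 / 8 * b (m + 1)) = -(1 / 8) + 11 / 8 * b m
      rw [← F_conj, hb]
    · have := (hlimb.const_mul (11 / 8)).const_add (-(1 / 8))
      have e : -(1 / 8) + 11 / 8 * (9 / 11) = (1 : ℝ) := by norm_num
      rw [e] at this
      exact this

end Pool.Agent.Results.MP_0765f6_an.NotClosedC1
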